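import Pool.Agent.H241.Orders

/-!
# The horocycle flow is not topologically recurrent on the stratum `H(3, 3, 3, 3)`
-/

namespace Pool.Agent.Results.MP_0142f2_an.NonRecurrent

open Pool.Agent.H241 Topology

/-- There are a translation surface `x` in the stratum `H(3, 3, 3, 3)` and a neighbourhood `V` of
`x` in the moduli space such that `u(s) x` lies outside `V` for all real `s` with `|s| > 1`. -/
theorem result : ∃ x ∈ stratum {3, 3, 3, 3}, ∃ V ∈ 𝓝 x, ∀ s : ℝ, horo s x ∈ V → |s| ≤ 1 :=
  main

end Pool.Agent.Results.MP_0142f2_an.NonRecurrent
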